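import Mathlib

/-!
# FK-Ising percolation on infinite graphs, anchored Gromov hyperbolicity (helper975)

Definitions for MP_4ab6d1_pr.
-/

set_option autoImplicit false

open MeasureTheory Filter Topology

open scoped Classical BoundedContinuousFunction

namespace Pool.Agent.R975.FK

noncomputable section

variable {V : Type}

/-- A percolation configuration: `ω e = true` says that the pair `e` is open. -/
abbrev Config (V : Type) : Type := Sym2 V → Bool

/-- A finite subgraph of `G`: finitely many vertices and finitely many edges of `G` between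
them. -/
structure FinSub (G : SimpleGraph V) where
  /-- the vertices -/
  verts : Finset V
  /-- the edges -/
  edges : Finset (Sym2 V)
  edge_mem : ∀ e ∈ edges, e ∈ G.edgeSet
  ends_mem : ∀ e ∈ edges, ∀ x ∈ e, x ∈ verts

/-- The number of connected components of the graph with vertex set `W` and edge set `S`. -/
def comps (W : Finset V) (S : Finset (Sym2 V)) : ℕ :=
  Nat.card
    ((SimpleGraph.fromEdgeSet (S : Set (Sym2 V))).induce (W : Set V)).ConnectedComponent

/-- The FK-Ising weight (`q = 2`) of the set `S` of open edges, on the finite graph `H` with free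
boundary conditions. -/
def weight {G : SimpleGraph V} (p : ℝ) (H : FinSub G) (S : Finset (Sym2 V)) : ℝ :=
  p ^ S.card * (1 - p) ^ (H.edges \ S).card * 2 ^ comps H.verts S

/-- The configuration whose open pairs are the members of `S`. -/
def conf (S : Finset (Sym2 V)) : Config V := fun e => decide (e ∈ S)

/-- The FK-Ising measure on the finite graph `H`, as a measure on configurations (edges outside
`H` are closed). -/
def fk {G : SimpleGraph V} (p : ℝ) (H : FinSub G) : Measure (Config V) :=
  ∑ S ∈ H.edges.powerset,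
    ENNReal.ofReal (weight p H S / ∑ T ∈ H.edges.powerset, weight p H T) • Measure.dirac (conf S)

/-- `μ` is a free FK-Ising measure on `G`: the weak limit of the measures on finite subgraphs,
along an exhaustion of `G` by finite subgraphs. -/
def IsFreeFK (G : SimpleGraph V) (p : ℝ) (μ : Measure (Config V)) : Prop :=
  IsProbabilityMeasure μ ∧
    ∃ H : ℕ → FinSub G,
      Monotone (fun n => (H n).verts) ∧ Monotone (fun n => (H n).edges) ∧
      (∀ x : V, ∃ n, x ∈ (H n).verts) ∧ (∀ e ∈ G.edgeSet, ∃ n, e ∈ (H n).edges) ∧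
      ∀ f : Config V →ᵇ ℝ, Tendsto (fun n => ∫ ω, f ω ∂(fk p (H n))) atTop (𝓝 (∫ ω, f ω ∂μ))

/-- The open subgraph. -/
def openGraph (G : SimpleGraph V) (ω : Config V) : SimpleGraph V where
  Adj x y := G.Adj x y ∧ ω s(x, y) = true
  symm := ⟨fun x y h => ⟨h.1.symm, by rw [Sym2.eq_swap]; exact h.2⟩⟩
  loopless := ⟨fun x h => G.loopless.irrefl x h.1⟩

/-- `ω` has an infinite cluster. -/
def HasInfCluster (G : SimpleGraph V) (ω : Config V) : Prop :=
  ∃ C : (openGraph G ω).ConnectedComponent, C.supp.Infinite

/-- The critical probability: the infimum of the `p` for which the free FK-Ising measure has an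
infinite cluster with positive probability. -/
def pc (G : SimpleGraph V) : ℝ :=
  sInf {p : ℝ | 0 ≤ p ∧ p ≤ 1 ∧ ∃ μ, IsFreeFK G p μ ∧ 0 < μ {ω | HasInfCluster G ω}}

/-- A walk is geodesic when its length is the distance of its ends. -/
def IsGeo {W : Type} {Γ : SimpleGraph W} {u v : W} (p : Γ.Walk u v) : Prop :=
  p.length = Γ.dist u v

/-- Every vertex of `b` is within distance `δ` of the union of `a` and `c`. -/
def SideThin {W : Type} {Γ : SimpleGraph W} {x₁ y₁ x₂ y₂ x₃ y₃ : W} (δ : ℕ) (b : Γ.Walk x₁ y₁)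
    (a : Γ.Walk x₂ y₂) (c : Γ.Walk x₃ y₃) : Prop :=
  ∀ w ∈ b.support, ∃ u, (u ∈ a.support ∨ u ∈ c.support) ∧ Γ.dist w u ≤ δ

/-- The triangle with sides `a`, `b`, `c` is `δ`-thin. -/
def Thin {W : Type} {Γ : SimpleGraph W} {x y z : W} (δ : ℕ) (a : Γ.Walk x y) (b : Γ.Walk y z)
    (c : Γ.Walk z x) : Prop :=
  SideThin δ a b c ∧ SideThin δ b a c ∧ SideThin δ c a b

/-- Gromov hyperbolicity: all geodesic triangles are `δ`-thin, for some `δ`. -/
def GromovHyperbolic {W : Type} (Γ : SimpleGraph W) : Prop :=
  ∃ δ : ℕ, ∀ (x y z : W) (a : Γ.Walk x y) (b : Γ.Walk y z) (c : Γ.Walk z x),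
    IsGeo a → IsGeo b → IsGeo c → Thin δ a b c

/-- Anchored Gromov hyperbolicity at the vertex `v`: for some `δ`, all geodesic triangles passing
through `v` are `δ`-thin. -/
def AnchoredAt {W : Type} (Γ : SimpleGraph W) (v : W) : Prop :=
  ∃ δ : ℕ, ∀ (x y z : W) (a : Γ.Walk x y) (b : Γ.Walk y z) (c : Γ.Walk z x),
    IsGeo a → IsGeo b → IsGeo c → (v ∈ a.support ∨ v ∈ b.support ∨ v ∈ c.support) →
      Thin δ a b c

/-- Anchored Gromov hyperbolicity. -/
def AnchoredHyperbolic {W : Type} (Γ : SimpleGraph W) : Prop := ∀ v : W, AnchoredAt Γ v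

end

end Pool.Agent.R975.FK
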