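import Pool.Agent.R975.FK.Defs

/-! Finite energy of FK-Ising measures (helper975). -/

set_option autoImplicit false

open MeasureTheory Filter Topology

open scoped Classical BoundedContinuousFunction

namespace Pool.Agent.R975.FK

noncomputable section

variable {V : Type}

/-! ### adding an edge -/

theorem reach_insert {W : Type} {Γ Γ' : SimpleGraph W} {x y : W}
    (h : ∀ a b, Γ'.Adj a b → Γ.Adj a b ∨ (a = x ∧ b = y) ∨ (a = y ∧ b = x)) {u v : W}
    (p : Γ'.Walk u v) :
    Γ.Reachable u v ∨ (Γ.Reachable u x ∧ Γ.Reachable y v) ∨ (Γ.Reachable u y ∧ Γ.Reachable x v)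
    := by
  induction p with
  | nil => exact Or.inl (SimpleGraph.Reachable.refl _)
  | cons hab q ih =>
    rcases h _ _ hab with h1 | ⟨rfl, rfl⟩ | ⟨rfl, rfl⟩
    · rcases ih with h2 | ⟨h2, h3⟩ | ⟨h2, h3⟩
      · exact Or.inl (h1.reachable.trans h2)
      · exact Or.inr (Or.inl ⟨h1.reachable.trans h2, h3⟩)
      · exact Or.inr (Or.inr ⟨h1.reachable.trans h2, h3⟩)
    · rcases ih with h2 | ⟨h2, h3⟩ | ⟨h2, h3⟩
      · exact Or.inr (Or.inl ⟨SimpleGraph.Reachable.refl _, h2⟩)
      · exact Or.inr (Or.inl ⟨SimpleGraph.Reachable.refl _, h3⟩)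
      · exact Or.inl h3
    · rcases ih with h2 | ⟨h2, h3⟩ | ⟨h2, h3⟩
      · exact Or.inr (Or.inr ⟨SimpleGraph.Reachable.refl _, h2⟩)
      · exact Or.inl h3
      · exact Or.inr (Or.inr ⟨SimpleGraph.Reachable.refl _, h3⟩)

theorem card_insert {W : Type} [Finite W] {Γ Γ' : SimpleGraph W} (hle : Γ ≤ Γ') {x y : W}
    (h : ∀ a b, Γ'.Adj a b → Γ.Adj a b ∨ (a = x ∧ b = y) ∨ (a = y ∧ b = x)) :
    Nat.card Γ'.ConnectedComponent ≤ Nat.card Γ.ConnectedComponent ∧
      Nat.card Γ.ConnectedComponent ≤ Nat.card Γ'.ConnectedComponent + 1 := by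
  have hf1 : Finite Γ.ConnectedComponent := Quot.finite _
  have hf2 : Finite Γ'.ConnectedComponent := Quot.finite _
  set φ : Γ.ConnectedComponent → Γ'.ConnectedComponent :=
    SimpleGraph.ConnectedComponent.map (SimpleGraph.Hom.ofLE hle) with hφ
  constructor
  · refine Nat.card_le_card_of_surjective φ ?_
    intro C
    induction C using SimpleGraph.ConnectedComponent.ind with
    | h v => exact ⟨Γ.connectedComponentMk v, rfl⟩
  · have hinj : Function.Injective
        (fun C : Γ.ConnectedComponent =>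
          if C = Γ.connectedComponentMk x then (none : Option Γ'.ConnectedComponent)
          else some (φ C)) := by
      intro C D hCD
      simp only at hCD
      by_cases h1 : C = Γ.connectedComponentMk x
      · by_cases h2 : D = Γ.connectedComponentMk x
        · rw [h1, h2]
        · rw [if_pos h1, if_neg h2] at hCD
          exact absurd hCD (by simp)
      · by_cases h2 : D = Γ.connectedComponentMk x
        · rw [if_neg h1, if_pos h2] at hCD
          exact absurd hCD (by simp)
        · rw [if_neg h1, if_neg h2] at hCD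
          have h3 := Option.some_injective _ hCD
          induction C using SimpleGraph.ConnectedComponent.ind with
          | h u =>
            induction D using SimpleGraph.ConnectedComponent.ind with
            | h v =>
              have h4 : Γ'.Reachable u v := SimpleGraph.ConnectedComponent.exact h3
              obtain ⟨p⟩ := h4
              rw [SimpleGraph.ConnectedComponent.eq] at h1 h2 ⊢
              rcases reach_insert h p with h5 | ⟨h5, h6⟩ | ⟨h5, h6⟩
              · exact h5
              · exact absurd h5 h1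
              · exact absurd h6.symm h2
    have := Nat.card_le_card_of_injective _ hinj
    rwa [Finite.card_option] at this

theorem comps_insert (W : Finset V) (S : Finset (Sym2 V)) (e : Sym2 V) :
    comps W (insert e S) ≤ comps W S ∧ comps W S ≤ comps W (insert e S) + 1 := by
  unfold comps
  by_cases hW : ∃ x y : (W : Set V), e = s(x.1, y.1)
  · obtain ⟨x, y, rfl⟩ := hW
    refine card_insert (x := x) (y := y) ?_ ?_
    · intro a b hab
      simp only [SimpleGraph.comap_adj, SimpleGraph.fromEdgeSet_adj] at hab ⊢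
      exact ⟨by push_cast; exact Or.inr hab.1, hab.2⟩
    · intro a b hab
      simp only [SimpleGraph.comap_adj, SimpleGraph.fromEdgeSet_adj] at hab ⊢
      have h1 := hab.1
      simp only [Finset.coe_insert, Set.mem_insert_iff] at h1
      rcases h1 with h1 | h1
      · right
        rw [Function.Embedding.subtype_apply, Function.Embedding.subtype_apply] at h1
        rw [Sym2.eq_iff] at h1
        rcases h1 with h1 | h1
        · exact Or.inl ⟨Subtype.ext h1.1, Subtype.ext h1.2⟩
        · exact Or.inr ⟨Subtype.ext h1.1, Subtype.ext h1.2⟩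
      · exact Or.inl ⟨h1, hab.2⟩
  · have : (SimpleGraph.fromEdgeSet ((insert e S : Finset (Sym2 V)) : Set (Sym2 V))).induce
        (W : Set V) = (SimpleGraph.fromEdgeSet (S : Set (Sym2 V))).induce (W : Set V) := by
      ext a b
      simp only [SimpleGraph.comap_adj, SimpleGraph.fromEdgeSet_adj, Finset.coe_insert,
        Set.mem_insert_iff]
      constructor
      · rintro ⟨h1 | h1, h2⟩
        · exact absurd ⟨a, b, h1.symm⟩ hW
        · exact ⟨h1, h2⟩
      · rintro ⟨h1, h2⟩
        exact ⟨Or.inr h1, h2⟩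
    rw [this]
    omega

/-- the finite energy constant -/
def cc (p : ℝ) : ℝ := min (p / 2) (1 - p)

theorem cc_pos {p : ℝ} (h0 : 0 < p) (h1 : p < 1) : 0 < cc p :=
  lt_min (by linarith) (by linarith)

theorem cc_le {p : ℝ} (h0 : 0 < p) : cc p ≤ 1 := (min_le_right _ _).trans (by linarith)

variable {G : SimpleGraph V}

theorem weight_pos {p : ℝ} (h0 : 0 < p) (h1 : p < 1) (H : FinSub G) (S : Finset (Sym2 V)) :
    0 < weight p H S := by
  unfold weight
  have : 0 < 1 - p := by linarith
  positivity

theorem weight_insert {p : ℝ} (h0 : 0 < p) (h1 : p < 1) (H : FinSub G) (S : Finset (Sym2 V))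
    {e : Sym2 V} (he : e ∈ H.edges) (heS : e ∉ S) :
    cc p * (weight p H S + weight p H (insert e S)) ≤ weight p H S ∧
      cc p * (weight p H S + weight p H (insert e S)) ≤ weight p H (insert e S) := by
  obtain ⟨hk1, hk2⟩ := comps_insert H.verts S e
  have hp1 : 0 < 1 - p := by linarith
  have hcard : (H.edges \ S).card = (H.edges \ insert e S).card + 1 := by
    have : H.edges \ S = insert e (H.edges \ insert e S) := by
      ext a
      simp only [Finset.mem_sdiff, Finset.mem_insert, not_or]
      constructor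
      · rintro ⟨h2, h3⟩
        by_cases hae : a = e
        · exact Or.inl hae
        · exact Or.inr ⟨h2, hae, h3⟩
      · rintro (rfl | ⟨h2, _, h3⟩)
        · exact ⟨he, heS⟩
        · exact ⟨h2, h3⟩
    rw [this, Finset.card_insert_of_notMem]
    simp
  set n := (H.edges \ insert e S).card with hn
  set a := comps H.verts S with ha
  set b := comps H.verts (insert e S) with hb
  have hw1 : weight p H S = p ^ S.card * (1 - p) ^ n * ((1 - p) * 2 ^ a) := by
    unfold weight
    rw [hcard, pow_succ]
    ring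
  have hw2 : weight p H (insert e S) = p ^ S.card * (1 - p) ^ n * (p * 2 ^ b) := by
    unfold weight
    rw [Finset.card_insert_of_notMem heS, pow_succ]
    ring
  have hK : 0 < p ^ S.card * (1 - p) ^ n := by positivity
  have hab : ((2 : ℝ) ^ b ≤ 2 ^ a) ∧ ((2 : ℝ) ^ a ≤ 2 * 2 ^ b) := by
    constructor
    · exact pow_le_pow_right₀ (by norm_num) hk1
    · rw [← pow_succ']
      exact pow_le_pow_right₀ (by norm_num) hk2
  have hB : (0 : ℝ) < 2 ^ b := by positivity
  have hA : (0 : ℝ) < 2 ^ a := by positivity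
  have hc1 : cc p ≤ p / 2 := min_le_left _ _
  have hc2 : cc p ≤ 1 - p := min_le_right _ _
  have hc0 := cc_pos h0 h1
  have key1 : cc p * ((1 - p) * 2 ^ a + p * 2 ^ b) ≤ (1 - p) * 2 ^ a := by
    have h5 : (1 - p) * (2 : ℝ) ^ a + p * 2 ^ b ≤ 2 ^ a := by nlinarith [hab.1]
    exact mul_le_mul hc2 h5 (by positivity) hp1.le
  have key2 : cc p * ((1 - p) * 2 ^ a + p * 2 ^ b) ≤ p * 2 ^ b := by
    have h5 : (1 - p) * (2 : ℝ) ^ a + p * 2 ^ b ≤ 2 * 2 ^ b := by nlinarith [hab.1, hab.2]
    have h6 : cc p * ((1 - p) * 2 ^ a + p * 2 ^ b) ≤ (p / 2) * (2 * 2 ^ b) :=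
      mul_le_mul hc1 h5 (by positivity) (by positivity)
    have h7 : (p / 2) * (2 * 2 ^ b) = p * 2 ^ b := by ring
    rwa [h7] at h6
  rw [hw1, hw2]
  have hr : cc p * (p ^ S.card * (1 - p) ^ n * ((1 - p) * 2 ^ a) +
      p ^ S.card * (1 - p) ^ n * (p * 2 ^ b)) =
      p ^ S.card * (1 - p) ^ n * (cc p * ((1 - p) * 2 ^ a + p * 2 ^ b)) := by ring
  rw [hr]
  exact ⟨mul_le_mul_of_nonneg_left key1 hK.le, mul_le_mul_of_nonneg_left key2 hK.le⟩

/-- the mass of a predicate -/
def mass (p : ℝ) (H : FinSub G) (A : Finset (Sym2 V) → Prop) : ℝ :=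
  ∑ S ∈ H.edges.powerset, if A S then weight p H S else 0

/-- `A` does not depend on the edges in `F` -/
def Indep (F : Finset (Sym2 V)) (A : Finset (Sym2 V) → Prop) : Prop :=
  ∀ S S' : Finset (Sym2 V), (∀ e, e ∉ F → (e ∈ S ↔ e ∈ S')) → (A S ↔ A S')

/-- `S` has the pattern `T` on `F` -/
def Agree (F T S : Finset (Sym2 V)) : Prop := ∀ e ∈ F, (e ∈ S ↔ e ∈ T)

theorem mass_split (p : ℝ) (H : FinSub G) (A : Finset (Sym2 V) → Prop) {e : Sym2 V}
    (he : e ∈ H.edges) :
    mass p H A = ∑ S ∈ (H.edges.erase e).powerset,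
      ((if A S then weight p H S else 0) +
        (if A (insert e S) then weight p H (insert e S) else 0)) := by
  unfold mass
  rw [Finset.sum_add_distrib]
  conv_lhs => rw [← Finset.insert_erase he]
  rw [Finset.sum_powerset_insert (Finset.notMem_erase e _)]

theorem mass_one {p : ℝ} (h0 : 0 < p) (h1 : p < 1) (H : FinSub G)
    (A : Finset (Sym2 V) → Prop) {e : Sym2 V} (he : e ∈ H.edges) (hA : Indep {e} A) (P : Prop) :
    cc p * mass p H A ≤ mass p H (fun S => A S ∧ (e ∈ S ↔ P)) := by
  rw [mass_split p H A he, mass_split p H _ he, Finset.mul_sum]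
  refine Finset.sum_le_sum fun S hS => ?_
  have heS : e ∉ S := fun h => Finset.notMem_erase e _ (Finset.mem_powerset.1 hS h)
  have hi : A (insert e S) ↔ A S := by
    refine hA _ _ fun f hf => ?_
    have : f ≠ e := by simpa using hf
    simp [this]
  obtain ⟨hw1, hw2⟩ := weight_insert h0 h1 H S he heS
  have hp1 := weight_pos h0 h1 H S
  have hp2 := weight_pos h0 h1 H (insert e S)
  by_cases hAS : A S
  · have hAI := hi.2 hAS
    by_cases hP : P
    · have e1 : ¬ (A S ∧ (e ∈ S ↔ P)) := fun h => heS (h.2.2 hP)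
      have e2 : (A (insert e S) ∧ (e ∈ insert e S ↔ P)) := ⟨hAI, by simp [hP]⟩
      rw [if_pos hAS, if_pos hAI, if_neg e1, if_pos e2, zero_add]
      exact hw2
    · have e1 : (A S ∧ (e ∈ S ↔ P)) := ⟨hAS, by simp [heS, hP]⟩
      have e2 : ¬ (A (insert e S) ∧ (e ∈ insert e S ↔ P)) :=
        fun h => hP (h.2.1 (Finset.mem_insert_self _ _))
      rw [if_pos hAS, if_pos hAI, if_pos e1, if_neg e2, add_zero]
      exact hw1
  · have hAI : ¬ A (insert e S) := fun h => hAS (hi.1 h)
    rw [if_neg hAS, if_neg hAI, if_neg (fun h => hAS h.1), if_neg (fun h => hAI h.1)]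
    simp

theorem mass_agree {p : ℝ} (h0 : 0 < p) (h1 : p < 1) (H : FinSub G) (T : Finset (Sym2 V))
    (F : Finset (Sym2 V)) : ∀ (A : Finset (Sym2 V) → Prop), F ⊆ H.edges → Indep F A →
    cc p ^ F.card * mass p H A ≤ mass p H (fun S => A S ∧ Agree F T S) := by
  induction F using Finset.induction_on with
  | empty =>
    intro A _ _
    simp [Agree]
  | insert e F he ih =>
    intro A hF hA
    have hc0 := cc_pos h0 h1
    have hF' : F ⊆ H.edges := fun f hf => hF (Finset.mem_insert_of_mem hf)
    have h2 := ih A hF' (fun S S' h => hA S S' fun f hf => h f fun hf' =>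
      hf (Finset.mem_insert_of_mem hf'))
    have h3 := mass_one h0 h1 H (fun S => A S ∧ Agree F T S) (hF (Finset.mem_insert_self _ _))
      (by
        intro S S' h
        have h4 : A S ↔ A S' := hA S S' fun f hf => h f (by
          simp only [Finset.mem_singleton]
          rintro rfl
          exact hf (Finset.mem_insert_self _ _))
        have h5 : Agree F T S ↔ Agree F T S' := by
          unfold Agree
          constructor
          · intro h6 f hf
            rw [← h f (by simp only [Finset.mem_singleton]; rintro rfl; exact he hf)]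
            exact h6 f hf
          · intro h6 f hf
            rw [h f (by simp only [Finset.mem_singleton]; rintro rfl; exact he hf)]
            exact h6 f hf
        simp only
        rw [h4, h5]) (e ∈ T)
    have h4 : mass p H (fun S => (A S ∧ Agree F T S) ∧ (e ∈ S ↔ e ∈ T)) =
        mass p H (fun S => A S ∧ Agree (insert e F) T S) := by
      unfold mass
      refine Finset.sum_congr rfl fun S _ => ?_
      have : ((A S ∧ Agree F T S) ∧ (e ∈ S ↔ e ∈ T)) ↔ (A S ∧ Agree (insert e F) T S) := by
        unfold Agree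
        constructor
        · rintro ⟨⟨a, b⟩, c⟩
          refine ⟨a, fun f hf => ?_⟩
          rcases Finset.mem_insert.1 hf with rfl | hf
          · exact c
          · exact b f hf
        · rintro ⟨a, b⟩
          exact ⟨⟨a, fun f hf => b f (Finset.mem_insert_of_mem hf)⟩,
            b e (Finset.mem_insert_self _ _)⟩
      by_cases hh : (A S ∧ Agree F T S) ∧ (e ∈ S ↔ e ∈ T)
      · rw [if_pos hh, if_pos (this.1 hh)]
      · rw [if_neg hh, if_neg (fun h => hh (this.2 h))]
    rw [h4] at h3
    rw [Finset.card_insert_of_notMem he, pow_succ]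
    calc cc p ^ F.card * cc p * mass p H A = cc p * (cc p ^ F.card * mass p H A) := by ring
      _ ≤ cc p * mass p H (fun S => A S ∧ Agree F T S) := mul_le_mul_of_nonneg_left h2 hc0.le
      _ ≤ _ := h3

theorem mass_nonneg {p : ℝ} (h0 : 0 < p) (h1 : p < 1) (H : FinSub G)
    (A : Finset (Sym2 V) → Prop) : 0 ≤ mass p H A :=
  Finset.sum_nonneg fun S _ => by
    split_ifs
    · exact (weight_pos h0 h1 H S).le
    · exact le_rfl

theorem mass_compl (p : ℝ) (H : FinSub G) (A B : Finset (Sym2 V) → Prop) :
    mass p H (fun S => A S ∧ ¬ B S) = mass p H A - mass p H (fun S => A S ∧ B S) := by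
  unfold mass
  rw [← Finset.sum_sub_distrib]
  refine Finset.sum_congr rfl fun S _ => ?_
  by_cases hA : A S <;> by_cases hB : B S <;> simp [hA, hB]

theorem mass_fail {p : ℝ} (h0 : 0 < p) (h1 : p < 1) (H : FinSub G) {ι : Type}
    (F T : ι → Finset (Sym2 V)) (L : ℕ) (hL : ∀ i, (F i).card ≤ L)
    (hdis : ∀ i j, i ≠ j → Disjoint (F i) (F j)) (J : Finset ι) (hF : ∀ i ∈ J, F i ⊆ H.edges) :
    mass p H (fun S => ∀ i ∈ J, ¬ Agree (F i) (T i) S) ≤
      (1 - cc p ^ L) ^ J.card * mass p H (fun _ => True) := by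
  have hc0 := cc_pos h0 h1
  have hc1 := cc_le h0
  have hcL : cc p ^ L ≤ 1 := pow_le_one₀ hc0.le hc1
  induction J using Finset.induction_on with
  | empty => simp
  | insert i J hi ih =>
    have ih' := ih fun j hj => hF j (Finset.mem_insert_of_mem hj)
    have hind : Indep (F i) (fun S => ∀ j ∈ J, ¬ Agree (F j) (T j) S) := by
      intro S S' h
      have h2 : ∀ j ∈ J, (Agree (F j) (T j) S ↔ Agree (F j) (T j) S') := by
        intro j hj
        have hij : i ≠ j := fun h => hi (h ▸ hj)
        have h3 : ∀ f ∈ F j, (f ∈ S ↔ f ∈ S') := fun f hf =>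
          h f fun hf' => (Finset.disjoint_left.1 (hdis i j hij)) hf' hf
        unfold Agree
        constructor
        · intro h4 f hf
          rw [← h3 f hf]
          exact h4 f hf
        · intro h4 f hf
          rw [h3 f hf]
          exact h4 f hf
      constructor
      · intro h4 j hj
        rw [← h2 j hj]
        exact h4 j hj
      · intro h4 j hj
        rw [h2 j hj]
        exact h4 j hj
    have h2 := mass_agree h0 h1 H (T i) (F i) _ (hF i (Finset.mem_insert_self _ _)) hind
    have h3 : mass p H (fun S => ∀ j ∈ insert i J, ¬ Agree (F j) (T j) S) =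
        mass p H (fun S => (∀ j ∈ J, ¬ Agree (F j) (T j) S) ∧ ¬ Agree (F i) (T i) S) := by
      unfold mass
      refine Finset.sum_congr rfl fun S _ => ?_
      have : (∀ j ∈ insert i J, ¬ Agree (F j) (T j) S) ↔
          ((∀ j ∈ J, ¬ Agree (F j) (T j) S) ∧ ¬ Agree (F i) (T i) S) := by
        rw [Finset.forall_mem_insert]
        exact and_comm
      by_cases hh : ∀ j ∈ insert i J, ¬ Agree (F j) (T j) S
      · rw [if_pos hh, if_pos (this.1 hh)]
      · rw [if_neg hh, if_neg (fun h => hh (this.2 h))]
    rw [h3, mass_compl, Finset.card_insert_of_notMem hi, pow_succ]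
    have hM := mass_nonneg h0 h1 H (fun S => ∀ j ∈ J, ¬ Agree (F j) (T j) S)
    have h4 : cc p ^ L * mass p H (fun S => ∀ j ∈ J, ¬ Agree (F j) (T j) S) ≤
        mass p H (fun S => (∀ j ∈ J, ¬ Agree (F j) (T j) S) ∧ Agree (F i) (T i) S) :=
      (mul_le_mul_of_nonneg_right (pow_le_pow_of_le_one hc0.le hc1 (hL i)) hM).trans h2
    calc mass p H (fun S => ∀ j ∈ J, ¬ Agree (F j) (T j) S) -
          mass p H (fun S => (∀ j ∈ J, ¬ Agree (F j) (T j) S) ∧ Agree (F i) (T i) S)
        ≤ (1 - cc p ^ L) * mass p H (fun S => ∀ j ∈ J, ¬ Agree (F j) (T j) S) := by linarith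
      _ ≤ (1 - cc p ^ L) * ((1 - cc p ^ L) ^ J.card * mass p H (fun _ => True)) :=
        mul_le_mul_of_nonneg_left ih' (by linarith)
      _ = _ := by ring

end

end Pool.Agent.R975.FK
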