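import Pool.Agent.R975.FK.Defs

/-! The graph (helper975). -/

set_option autoImplicit false

open scoped Classical

namespace Pool.Agent.R975.FK

open SimpleGraph

/-- number of copies of the gadget at level `k` -/
def NN (k : ℕ) : ℕ := (k + 2) ^ (8 * k + 9) * (k + 1)

theorem NN_pos (k : ℕ) : 0 < NN k := by
  unfold NN
  positivity

/-- The vertices: cut vertices `x k`, hubs `y k j`, rim vertices `r k j i`. -/
inductive Vt : Type
  | x (k : ℕ) : Vt
  | y (k : ℕ) (j : Fin (NN k)) : Vt
  | r (k : ℕ) (j : Fin (NN k)) (i : Fin (4 * (k + 1))) : Vt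

namespace Vt

/-- the level -/
def idx : Vt → ℕ
  | x k => k
  | y k _ => k
  | r k _ _ => k

/-- the edges, each in one direction -/
def base : Vt → Vt → Prop
  | x k, y k' _ => k = k'
  | y k _, x k' => k' = k + 1
  | y k j, r k' j' _ => k = k' ∧ j.val = j'.val
  | r k j i, r k' j' i' => k = k' ∧ j.val = j'.val ∧ i'.val = i.val + 1
  | _, _ => False

end Vt

open Vt

/-- The graph: consecutive cut vertices `x k`, `x (k+1)` are joined by `NN k` gadgets; a gadget is
a hub adjacent to both and to all the vertices of a path (the rim). -/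
def GG : SimpleGraph Vt := SimpleGraph.fromRel base

theorem base_ne {a b : Vt} (h : base a b) : a ≠ b := by
  rintro rfl
  cases a with
  | x k => exact h
  | y k j => exact h
  | r k j i =>
    have := h.2.2
    omega

theorem adj_iff {a b : Vt} : GG.Adj a b ↔ base a b ∨ base b a := by
  unfold GG
  rw [SimpleGraph.fromRel_adj]
  constructor
  · exact fun h => h.2
  · intro h
    refine ⟨?_, h⟩
    rcases h with h | h
    · exact base_ne h
    · exact (base_ne h).symm

theorem adj_xy (k : ℕ) (j : Fin (NN k)) : GG.Adj (x k) (y k j) := adj_iff.2 (Or.inl rfl)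

theorem adj_yx (k : ℕ) (j : Fin (NN k)) : GG.Adj (y k j) (x (k + 1)) := adj_iff.2 (Or.inl rfl)

theorem adj_yr (k : ℕ) (j : Fin (NN k)) (i : Fin (4 * (k + 1))) : GG.Adj (y k j) (r k j i) :=
  adj_iff.2 (Or.inl ⟨rfl, rfl⟩)

theorem adj_rr (k : ℕ) (j : Fin (NN k)) (i i' : Fin (4 * (k + 1))) (h : i'.val = i.val + 1) :
    GG.Adj (r k j i) (r k j i') :=
  adj_iff.2 (Or.inl ⟨rfl, rfl, h⟩)

/-- an edge going up one level ends at a cut vertex -/
theorem adj_up {a b : Vt} (h : GG.Adj a b) (hab : idx a < idx b) : b = x (idx a + 1) := by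
  rcases adj_iff.1 h with h | h
  · cases a <;> cases b <;> simp only [base, idx] at h hab <;> first | omega | (rw [h]; rfl)
  · cases a <;> cases b <;> simp only [base, idx] at h hab <;> omega

theorem adj_idx {a b : Vt} (h : GG.Adj a b) : idx b ≤ idx a + 1 := by
  by_cases hab : idx a < idx b
  · rw [adj_up h hab]
    exact le_rfl
  · omega

/-- the neighbours of a rim vertex -/
theorem adj_r {k : ℕ} {j : Fin (NN k)} {i : Fin (4 * (k + 1))} {u : Vt}
    (h : GG.Adj (r k j i) u) :
    u = y k j ∨ ∃ i' : Fin (4 * (k + 1)), u = r k j i' ∧ (i'.val = i.val + 1 ∨ i.val = i'.val + 1)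
    := by
  rcases adj_iff.1 h with h | h
  · cases u with
    | x k' => exact absurd h (by simp [base])
    | y k' j' => exact absurd h (by simp [base])
    | r k' j' i' =>
      obtain ⟨rfl, h2, h3⟩ := h
      obtain rfl : j = j' := Fin.ext h2
      exact Or.inr ⟨i', rfl, Or.inl h3⟩
  · cases u with
    | x k' => exact absurd h (by simp [base])
    | y k' j' =>
      obtain ⟨rfl, h2⟩ := h
      obtain rfl : j' = j := Fin.ext h2
      exact Or.inl rfl
    | r k' j' i' =>
      obtain ⟨rfl, h2, h3⟩ := h
      obtain rfl : j' = j := Fin.ext h2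
      exact Or.inr ⟨i', rfl, Or.inr h3⟩

/-- level-crossing walks pass through the cut vertex, in any subgraph -/
theorem through_x {Γ : SimpleGraph Vt} (hΓ : Γ ≤ GG) {a b : Vt} (p : Γ.Walk a b) {k : ℕ}
    (ha : idx a < k) (hb : k ≤ idx b) : x k ∈ p.support := by
  obtain ⟨d, hd, h1, h2⟩ := p.exists_boundary_dart {u | idx u < k} ha (by
    intro h
    exact absurd h (not_lt.2 hb))
  have h3 : idx d.fst < k := h1
  have h4 : k ≤ idx d.snd := not_lt.1 h2
  have h5 := adj_up (hΓ d.adj) (by omega)
  have h6 : idx d.snd = idx d.fst + 1 := by rw [h5]; rfl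
  have h7 : x k = d.snd := by
    rw [h5]
    congr 1
    omega
  rw [h7]
  exact p.dart_snd_mem_support_of_mem_darts hd

/-- the walk to the cut vertex of the level -/
theorem to_x (u : Vt) : ∃ p : GG.Walk u (x (idx u)), p.length ≤ 2 := by
  cases u with
  | x k => exact ⟨Walk.nil, Nat.zero_le 2⟩
  | y k j => exact ⟨(adj_xy k j).symm.toWalk, Nat.le_succ 1⟩
  | r k j i => exact ⟨Walk.cons (adj_yr k j i).symm (adj_xy k j).symm.toWalk, Nat.le_refl 2⟩

theorem x_step (k : ℕ) : ∃ p : GG.Walk (x k) (x (k + 1)), p.length ≤ 2 :=
  ⟨Walk.cons (adj_xy k ⟨0, NN_pos k⟩) (adj_yx k ⟨0, NN_pos k⟩).toWalk, Nat.le_refl 2⟩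

theorem reach_x0 (k : ℕ) : GG.Reachable (x 0) (x k) := by
  induction k with
  | zero => exact Reachable.refl _
  | succ k ih =>
    obtain ⟨p, _⟩ := x_step k
    exact ih.trans p.reachable

theorem connected_GG : GG.Connected := by
  have h : ∀ u : Vt, GG.Reachable (x 0) u := fun u => by
    obtain ⟨p, _⟩ := to_x u
    exact (reach_x0 _).trans p.reachable.symm
  exact { preconnected := fun u v => (h u).symm.trans (h v), nonempty := ⟨x 0⟩ }

theorem dist_x (u : Vt) : GG.dist u (x (idx u)) ≤ 2 := by
  obtain ⟨p, hp⟩ := to_x u
  exact (dist_le p).trans hp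

theorem dist_same {u v : Vt} (h : idx u = idx v) : GG.dist u v ≤ 4 := by
  have h1 := dist_x u
  have h2 := dist_x v
  have h3 := connected_GG.dist_triangle (u := u) (v := x (idx u)) (w := v)
  rw [h] at h1 h3
  rw [SimpleGraph.dist_comm (u := x (idx v))] at h3
  omega

/-- the key estimate: a vertex of a geodesic is close to every walk with the same ends -/
theorem near_walk {b c : Vt} (q : GG.Walk b c) (hq : IsGeo q) (s : GG.Walk b c) (w : Vt)
    (hw : w ∈ q.support) : ∃ u ∈ s.support, GG.dist w u ≤ 4 := by
  by_cases h1 : idx w = idx b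
  · exact ⟨b, s.start_mem_support, dist_same h1⟩
  by_cases h2 : idx w = idx c
  · exact ⟨c, s.end_mem_support, dist_same h2⟩
  have hx := dist_x w
  rcases Nat.lt_or_ge (idx b) (idx w) with h3 | h3
  · rcases Nat.lt_or_ge (idx w) (idx c) with h4 | h4
    · -- between
      exact ⟨x (idx w), through_x le_rfl s h3 h4.le, by omega⟩
    · -- above both
      have h4' : idx c < idx w := by omega
      set m := max (idx b) (idx c) + 1 with hm
      have ha1 := through_x le_rfl (q.takeUntil w hw) (k := m) (by omega) (by omega)
      have ha2 := through_x le_rfl (q.dropUntil w hw).reverse (k := m) (by omega) (by omega)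
      rw [Walk.support_reverse, List.mem_reverse] at ha2
      have e0 := congrArg Walk.length (q.take_spec hw)
      have e1 := congrArg Walk.length ((q.takeUntil w hw).take_spec ha1)
      have e2 := congrArg Walk.length ((q.dropUntil w hw).take_spec ha2)
      rw [Walk.length_append] at e0 e1 e2
      have d1 := dist_le ((q.takeUntil w hw).takeUntil _ ha1)
      have d2 := dist_le ((q.dropUntil w hw).dropUntil _ ha2)
      have d3 := connected_GG.dist_triangle (u := b) (v := x m) (w := c)
      have hq' : q.length = GG.dist b c := hq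
      have hz : ((q.takeUntil w hw).dropUntil _ ha1).length = 0 := by omega
      have hwx : x m = w := Walk.eq_of_length_eq_zero hz
      have hdx : GG.dist (x m) (x (m - 1)) ≤ 2 := by
        have hst := x_step (m - 1)
        have hm1 : m - 1 + 1 = m := by omega
        rw [hm1] at hst
        obtain ⟨p, hp⟩ := hst
        rw [SimpleGraph.dist_comm]
        exact (dist_le p).trans hp
      rcases Nat.lt_or_ge (idx b) (idx c) with h5 | h5
      · refine ⟨c, s.end_mem_support, ?_⟩
        have hmc : m - 1 = idx c := by omega
        have t := connected_GG.dist_triangle (u := w) (v := x (idx c)) (w := c)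
        have hc2 := dist_x c
        rw [SimpleGraph.dist_comm] at hc2
        rw [← hwx] at t ⊢
        rw [hmc] at hdx
        omega
      · refine ⟨b, s.start_mem_support, ?_⟩
        have hmc : m - 1 = idx b := by omega
        have t := connected_GG.dist_triangle (u := w) (v := x (idx b)) (w := b)
        have hc2 := dist_x b
        rw [SimpleGraph.dist_comm] at hc2
        rw [← hwx] at t ⊢
        rw [hmc] at hdx
        omega
  · have h3' : idx w < idx b := by omega
    rcases Nat.lt_or_ge (idx c) (idx w) with h4 | h4
    · -- between, the other way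
      have := through_x le_rfl s.reverse h4 h3'.le
      rw [Walk.support_reverse, List.mem_reverse] at this
      exact ⟨x (idx w), this, by omega⟩
    · -- below both: impossible
      have h4' : idx w < idx c := by omega
      exfalso
      set m := min (idx b) (idx c) with hm
      have ha1 := through_x le_rfl (q.takeUntil w hw).reverse (k := m) (by omega) (by omega)
      have ha2 := through_x le_rfl (q.dropUntil w hw) (k := m) (by omega) (by omega)
      rw [Walk.support_reverse, List.mem_reverse] at ha1
      have e0 := congrArg Walk.length (q.take_spec hw)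
      have e1 := congrArg Walk.length ((q.takeUntil w hw).take_spec ha1)
      have e2 := congrArg Walk.length ((q.dropUntil w hw).take_spec ha2)
      rw [Walk.length_append] at e0 e1 e2
      have d1 := dist_le ((q.takeUntil w hw).takeUntil _ ha1)
      have d2 := dist_le ((q.dropUntil w hw).dropUntil _ ha2)
      have d3 := connected_GG.dist_triangle (u := b) (v := x m) (w := c)
      have hq' : q.length = GG.dist b c := hq
      have hz : ((q.takeUntil w hw).dropUntil _ ha1).length = 0 := by omega
      have hwx : x m = w := Walk.eq_of_length_eq_zero hz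
      have : idx w = m := by rw [← hwx]; rfl
      omega

theorem hyperbolic_GG : GromovHyperbolic GG := by
  refine ⟨4, fun u v w a b c ha hb hc => ⟨?_, ?_, ?_⟩⟩
  · intro t ht
    obtain ⟨s, hs, hd⟩ := near_walk a ha (b.append c).reverse t ht
    rw [Walk.support_reverse, List.mem_reverse, Walk.mem_support_append_iff] at hs
    exact ⟨s, hs, hd⟩
  · intro t ht
    obtain ⟨s, hs, hd⟩ := near_walk b hb (c.append a).reverse t ht
    rw [Walk.support_reverse, List.mem_reverse, Walk.mem_support_append_iff] at hs
    exact ⟨s, hs.symm, hd⟩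
  · intro t ht
    obtain ⟨s, hs, hd⟩ := near_walk c hc (a.append b).reverse t ht
    rw [Walk.support_reverse, List.mem_reverse, Walk.mem_support_append_iff] at hs
    exact ⟨s, hs, hd⟩

/-- finitely many vertices at every level -/
theorem finite_level (k : ℕ) : {u : Vt | idx u = k}.Finite := by
  have h : {u : Vt | idx u = k} ⊆ {x k} ∪ Set.range (fun j : Fin (NN k) => y k j) ∪
      Set.range (fun ji : Fin (NN k) × Fin (4 * (k + 1)) => r k ji.1 ji.2) := by
    intro u hu
    cases u with
    | x k' =>
      obtain rfl : k' = k := hu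
      exact Or.inl (Or.inl rfl)
    | y k' j =>
      obtain rfl : k' = k := hu
      exact Or.inl (Or.inr ⟨j, rfl⟩)
    | r k' j i =>
      obtain rfl : k' = k := hu
      exact Or.inr ⟨(j, i), rfl⟩
  exact (((Set.finite_singleton _).union (Set.finite_range _)).union (Set.finite_range _)).subset h

theorem finite_below (k : ℕ) : {u : Vt | idx u ≤ k}.Finite := by
  have h : {u : Vt | idx u ≤ k} ⊆ ⋃ i ∈ Set.Iic k, {u : Vt | idx u = i} := by
    intro u hu
    simp only [Set.mem_iUnion]
    exact ⟨idx u, hu, rfl⟩
  exact ((Set.finite_Iic k).biUnion fun i _ => finite_level i).subset h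

theorem locally_finite (v : Vt) : (GG.neighborSet v).Finite :=
  (finite_below (idx v + 1)).subset fun _ hu => adj_idx hu

instance : Countable Vt := by
  have h : (⋃ k : ℕ, {u : Vt | idx u = k}) = Set.univ := by
    ext u
    simp
  have h2 : (Set.univ : Set Vt).Countable := by
    rw [← h]
    exact Set.countable_iUnion fun k => (finite_level k).countable
  exact Set.countable_univ_iff.1 h2

instance : Infinite Vt := Infinite.of_injective (fun k : ℕ => x k) fun a b h => by
  simpa using h

end Pool.Agent.R975.FK
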