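import Pool.Agent.R975.FK.FinE

/-! Passage to the limit and existence of free FK-Ising measures (helper975). -/

set_option autoImplicit false

open MeasureTheory Filter Topology

open scoped Classical BoundedContinuousFunction

namespace Pool.Agent.R975.FK

noncomputable section

variable {V : Type} {G : SimpleGraph V}

theorem mass_true (p : ℝ) (H : FinSub G) :
    mass p H (fun _ => True) = ∑ T ∈ H.edges.powerset, weight p H T := by
  unfold mass
  simp

theorem mass_true_pos {p : ℝ} (h0 : 0 < p) (h1 : p < 1) (H : FinSub G) :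
    0 < ∑ T ∈ H.edges.powerset, weight p H T :=
  Finset.sum_pos (fun T _ => weight_pos h0 h1 H T) ⟨∅, by simp⟩

instance fk_finite (p : ℝ) (H : FinSub G) : IsFiniteMeasure (fk p H) := by
  unfold fk
  refine ⟨?_⟩
  simp only [Measure.coe_finsetSum, Finset.sum_apply, Measure.smul_apply, smul_eq_mul]
  refine ENNReal.sum_lt_top.2 fun S _ => ?_
  exact ENNReal.mul_lt_top ENNReal.ofReal_lt_top (measure_lt_top _ _)

theorem fk_prob {p : ℝ} (h0 : 0 < p) (h1 : p < 1) (H : FinSub G) :
    IsProbabilityMeasure (fk p H) := by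
  refine ⟨?_⟩
  unfold fk
  simp only [Measure.coe_finsetSum, Finset.sum_apply, Measure.smul_apply, smul_eq_mul,
    measure_univ, mul_one]
  have hZ := mass_true_pos h0 h1 H
  rw [← ENNReal.ofReal_sum_of_nonneg (fun S _ => div_nonneg (weight_pos h0 h1 H S).le hZ.le),
    ← Finset.sum_div, div_self hZ.ne', ENNReal.ofReal_one]

theorem integral_fk {p : ℝ} (h0 : 0 < p) (h1 : p < 1) (H : FinSub G) (f : Config V →ᵇ ℝ)
    (hm : StronglyMeasurable f) :
    ∫ ω, f ω ∂(fk p H) =
      (∑ S ∈ H.edges.powerset, weight p H S * f (conf S)) / ∑ T ∈ H.edges.powerset, weight p H T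
      := by
  unfold fk
  have hZ := mass_true_pos h0 h1 H
  rw [integral_finsetSum_measure]
  · rw [Finset.sum_div]
    refine Finset.sum_congr rfl fun S _ => ?_
    rw [integral_smul_measure, integral_dirac' _ _ hm,
      ENNReal.toReal_ofReal (div_nonneg (weight_pos h0 h1 H S).le hZ.le), smul_eq_mul]
    ring
  · intro S _
    refine Integrable.smul_measure ?_ ENNReal.ofReal_ne_top
    exact ⟨hm.aestronglyMeasurable, HasFiniteIntegral.of_bounded
      (C := ‖f‖) (Eventually.of_forall fun ω => f.norm_coe_le_norm ω)⟩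

/-- the event that none of the patterns occurs -/
def failSet {ι : Type} (F T : ι → Finset (Sym2 V)) (J : Finset ι) : Set (Config V) :=
  {ω | ∀ i ∈ J, ¬ ∀ e ∈ F i, (ω e = true ↔ e ∈ T i)}

theorem isClopen_fail {ι : Type} (F T : ι → Finset (Sym2 V)) (J : Finset ι) :
    IsClopen (failSet F T J) := by
  have h : failSet F T J = ⋂ i ∈ J, (⋂ e ∈ F i, {ω : Config V | ω e = true ↔ e ∈ T i})ᶜ := by
    ext ω
    simp [failSet]
  rw [h]
  refine J.finite_toSet.isClopen_biInter fun i _ => ?_
  refine IsClopen.compl ?_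
  refine (F i).finite_toSet.isClopen_biInter fun e _ => ?_
  by_cases he : e ∈ T i
  · have : {ω : Config V | ω e = true ↔ e ∈ T i} = (fun ω : Config V => ω e) ⁻¹' {true} := by
      ext ω
      simp [he]
    rw [this]
    exact (isClopen_discrete _).preimage (continuous_apply e)
  · have : {ω : Config V | ω e = true ↔ e ∈ T i} = (fun ω : Config V => ω e) ⁻¹' {false} := by
      ext ω
      simp [he]
    rw [this]
    exact (isClopen_discrete _).preimage (continuous_apply e)

theorem free_fail [Countable V] {p : ℝ} (h0 : 0 < p) (h1 : p < 1) {μ : Measure (Config V)}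
    (hμ : IsFreeFK G p μ) {ι : Type} (F T : ι → Finset (Sym2 V)) (L : ℕ)
    (hL : ∀ i, (F i).card ≤ L) (hdis : ∀ i j, i ≠ j → Disjoint (F i) (F j)) (J : Finset ι)
    (hF : ∀ i ∈ J, ∀ e ∈ F i, e ∈ G.edgeSet) :
    μ (failSet F T J) ≤ ENNReal.ofReal ((1 - cc p ^ L) ^ J.card) := by
  obtain ⟨hprob, H, hmv, hme, hv, he, hlim⟩ := hμ
  have hcl := isClopen_fail F T J
  set f : Config V →ᵇ ℝ := BoundedContinuousFunction.indicator (failSet F T J) hcl with hf
  have hfv : ∀ ω, f ω = (failSet F T J).indicator (fun _ => (1 : ℝ)) ω := fun ω => rfl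
  have hms : MeasurableSet (failSet F T J) := hcl.1.measurableSet
  have hsm : StronglyMeasurable f := by
    have : (f : Config V → ℝ) = (failSet F T J).indicator (fun _ => (1 : ℝ)) := by
      funext ω
      exact hfv ω
    rw [this]
    exact stronglyMeasurable_const.indicator hms
  -- a stage containing all the edges
  have hstage : ∃ N, ∀ n ≥ N, ∀ i ∈ J, F i ⊆ (H n).edges := by
    have h2 : ∀ e ∈ J.biUnion F, ∃ N, e ∈ (H N).edges := by
      intro e hee
      obtain ⟨i, hi, hei⟩ := Finset.mem_biUnion.1 hee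
      exact he e (hF i hi e hei)
    choose! g hg using h2
    refine ⟨(J.biUnion F).sup g, fun n hn i hi e hei => ?_⟩
    have hmem : e ∈ J.biUnion F := Finset.mem_biUnion.2 ⟨i, hi, hei⟩
    exact hme ((Finset.le_sup hmem).trans hn) (hg e hmem)
  obtain ⟨N, hN⟩ := hstage
  have hbound : ∀ n ≥ N, ∫ ω, f ω ∂(fk p (H n)) ≤ (1 - cc p ^ L) ^ J.card := by
    intro n hn
    have hZ := mass_true_pos h0 h1 (H n)
    rw [integral_fk h0 h1 (H n) f hsm, div_le_iff₀ hZ]
    have h2 := mass_fail h0 h1 (H n) F T L hL hdis J (hN n hn)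
    rw [mass_true] at h2
    refine le_trans (le_of_eq ?_) h2
    unfold mass
    refine Finset.sum_congr rfl fun S _ => ?_
    rw [hfv]
    have hiff : conf S ∈ failSet F T J ↔ ∀ i ∈ J, ¬ Agree (F i) (T i) S := by
      simp only [failSet, conf, Set.mem_ofPred_eq, Agree, decide_eq_true_eq]
    by_cases hh : conf S ∈ failSet F T J
    · rw [Set.indicator_of_mem hh, if_pos (hiff.1 hh), mul_one]
    · rw [Set.indicator_of_notMem hh, if_neg (fun h => hh (hiff.2 h)), mul_zero]
  have h3 : ∫ ω, f ω ∂μ ≤ (1 - cc p ^ L) ^ J.card :=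
    le_of_tendsto (hlim f) (eventually_atTop.2 ⟨N, hbound⟩)
  have h4 : ∫ ω, f ω ∂μ = μ.real (failSet F T J) := by
    have : (fun ω => f ω) = (failSet F T J).indicator (fun _ => (1 : ℝ)) := by
      funext ω
      exact hfv ω
    rw [this, integral_indicator_const _ hms, smul_eq_mul, mul_one]
  rw [h4] at h3
  rw [← ENNReal.ofReal_toReal (measure_ne_top μ (failSet F T J))]
  exact ENNReal.ofReal_le_ofReal h3

/-- Existence of free FK-Ising measures. -/
theorem exists_free [Countable V] [Nonempty V] {p : ℝ} (h0 : 0 < p) (h1 : p < 1) :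
    ∃ μ, IsFreeFK G p μ := by
  obtain ⟨g, hg⟩ := exists_surjective_nat V
  set H : ℕ → FinSub G := fun n =>
    { verts := (Finset.range (n + 1)).image g
      edges := (((Finset.range (n + 1)).image g).sym2).filter (fun e => e ∈ G.edgeSet)
      edge_mem := fun e he => (Finset.mem_filter.1 he).2
      ends_mem := fun e he x hx => Finset.mem_sym2_iff.1 (Finset.mem_filter.1 he).1 x hx } with hH
  have hmv : Monotone (fun n => (H n).verts) := fun a b hab =>
    Finset.image_subset_image (Finset.range_mono (by omega))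
  have hme : Monotone (fun n => (H n).edges) := fun a b hab =>
    Finset.filter_subset_filter _ (Finset.sym2_mono (hmv hab))
  have hv : ∀ x : V, ∃ n, x ∈ (H n).verts := by
    intro x
    obtain ⟨n, rfl⟩ := hg x
    exact ⟨n, Finset.mem_image.2 ⟨n, by simp, rfl⟩⟩
  have he : ∀ e ∈ G.edgeSet, ∃ n, e ∈ (H n).edges := by
    intro e hee
    induction e using Sym2.ind with
    | h x y =>
      obtain ⟨a, ha⟩ := hv x
      obtain ⟨b, hb⟩ := hv y
      refine ⟨max a b, Finset.mem_filter.2 ⟨?_, hee⟩⟩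
      rw [Finset.mk_mem_sym2_iff]
      exact ⟨hmv (le_max_left a b) ha, hmv (le_max_right a b) hb⟩
  set φ : ℕ → ProbabilityMeasure (Config V) := fun n => ⟨fk p (H n), fk_prob h0 h1 (H n)⟩ with hφ
  obtain ⟨μ, _, ψ, hψ, hlim⟩ := isCompact_univ.tendsto_subseq (x := φ) (fun n => Set.mem_univ _)
  refine ⟨μ, inferInstance, fun n => H (ψ n), hmv.comp hψ.monotone, hme.comp hψ.monotone, ?_, ?_,
    ?_⟩
  · intro x
    obtain ⟨n, hn⟩ := hv x
    exact ⟨n, hmv (hψ.id_le n) hn⟩
  · intro e hee
    obtain ⟨n, hn⟩ := he e hee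
    exact ⟨n, hme (hψ.id_le n) hn⟩
  · intro f
    have := (ProbabilityMeasure.tendsto_iff_forall_integral_tendsto.1 hlim) f
    exact this

end

end Pool.Agent.R975.FK
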