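import Pool.Agent.R975.FK.Defs

/-! A pendant long cycle gives thick geodesic triangles through every vertex (helper975). -/

set_option autoImplicit false

open scoped Classical

namespace Pool.Agent.R975.FK

open SimpleGraph

theorem potential {W : Type} {Γ : SimpleGraph W} (f : W → ℕ)
    (hf : ∀ a b, Γ.Adj a b → f b ≤ f a + 1) {a b : W} (p : Γ.Walk a b) :
    f b ≤ f a + p.length := by
  induction p with
  | nil => simp
  | cons h q ih =>
    have := hf _ _ h
    rw [Walk.length_cons]
    omega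

theorem potential_dist {W : Type} {Γ : SimpleGraph W} (f : W → ℕ)
    (hf : ∀ a b, Γ.Adj a b → f b ≤ f a + 1) {a b : W} (h : Γ.Reachable a b) :
    f b ≤ f a + Γ.dist a b := by
  obtain ⟨p, hp⟩ := h.exists_walk_length_eq_dist
  rw [← hp]
  exact potential f hf p

/-- Data of a pendant cycle `y, r 0, …, r (2m-1)`. -/
structure Pendant {W : Type} (Γ : SimpleGraph W) (m : ℕ) (y : W) (r : ℕ → W) : Prop where
  ne_y : ∀ i < 2 * m, r i ≠ y
  inj : ∀ i < 2 * m, ∀ j < 2 * m, r i = r j → i = j
  first : Γ.Adj y (r 0)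
  last : Γ.Adj y (r (2 * m - 1))
  step : ∀ i, i + 1 < 2 * m → Γ.Adj (r i) (r (i + 1))
  nb : ∀ i < 2 * m, ∀ u, Γ.Adj (r i) u →
    (u = y ∧ (i = 0 ∨ i = 2 * m - 1)) ∨ ∃ j < 2 * m, u = r j ∧ (j = i + 1 ∨ i = j + 1)

section

variable {W : Type} {Γ : SimpleGraph W} {m : ℕ} {y : W} {r : ℕ → W}

/-- a potential supported on the cycle -/
noncomputable def pot (m : ℕ) (r : ℕ → W) (g : ℕ → ℕ) (u : W) : ℕ :=
  if h : ∃ i < 2 * m, u = r i then g h.choose else 0

theorem pot_r (hP : Pendant Γ m y r) (g : ℕ → ℕ) {i : ℕ} (hi : i < 2 * m) :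
    pot m r g (r i) = g i := by
  unfold pot
  have h : ∃ j < 2 * m, r i = r j := ⟨i, hi, rfl⟩
  rw [dif_pos h]
  obtain ⟨h1, h2⟩ := h.choose_spec
  exact congrArg g (hP.inj i hi _ h1 h2).symm

theorem pot_other (g : ℕ → ℕ) {u : W} (hu : ∀ i < 2 * m, u ≠ r i) : pot m r g u = 0 := by
  unfold pot
  rw [dif_neg]
  rintro ⟨i, hi, h⟩
  exact hu i hi h

theorem pot_lip (hP : Pendant Γ m y r) (g : ℕ → ℕ) (h0 : g 0 ≤ 1) (h1 : g (2 * m - 1) ≤ 1)
    (hs : ∀ i, i + 1 < 2 * m → g (i + 1) ≤ g i + 1 ∧ g i ≤ g (i + 1) + 1) (a b : W)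
    (hab : Γ.Adj a b) : pot m r g b ≤ pot m r g a + 1 := by
  by_cases hb : ∃ i < 2 * m, b = r i
  · obtain ⟨i, hi, rfl⟩ := hb
    rw [pot_r hP g hi]
    rcases hP.nb i hi a hab.symm with ⟨rfl, h2 | h2⟩ | ⟨j, hj, rfl, h2 | h2⟩
    · subst h2
      omega
    · subst h2
      omega
    · rw [pot_r hP g hj]
      subst h2
      exact (hs i hj).2
    · rw [pot_r hP g hj]
      subst h2
      exact (hs j hi).1
  · rw [pot_other g (fun i hi h => hb ⟨i, hi, h⟩)]
    omega

/-- walks entering the cycle pass through `y` -/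
theorem through_y (hP : Pendant Γ m y r) {v : W} (hv : ∀ i < 2 * m, v ≠ r i) {i : ℕ}
    (hi : i < 2 * m) (p : Γ.Walk v (r i)) : y ∈ p.support := by
  obtain ⟨d, hd, h1, h2⟩ := p.exists_boundary_dart {u | ¬ ∃ i < 2 * m, u = r i}
    (by rintro ⟨j, hj, h⟩; exact hv j hj h) (by
      intro h
      exact h ⟨i, hi, rfl⟩)
  have h3 : ∃ j < 2 * m, d.snd = r j := by
    by_contra hcon
    exact h2 hcon
  obtain ⟨j, hj, hj2⟩ := h3
  have h4 : ¬ ∃ i < 2 * m, d.fst = r i := h1
  have h5 : Γ.Adj (r j) d.fst := by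
    rw [← hj2]
    exact d.adj.symm
  rcases hP.nb j hj _ h5 with ⟨h6, _⟩ | ⟨l, hl, h6, _⟩
  · rw [← h6]
    exact p.dart_fst_mem_support_of_mem_darts hd
  · exact absurd ⟨l, hl, h6⟩ h4

theorem dist_ge (hP : Pendant Γ m y r) (hc : Γ.Connected) {v : W} (hv : ∀ i < 2 * m, v ≠ r i)
    {i : ℕ} (hi : i < 2 * m) : Γ.dist v y + min (i + 1) (2 * m - i) ≤ Γ.dist v (r i) := by
  obtain ⟨p, hp⟩ := (hc v (r i)).exists_walk_length_eq_dist
  have hy := through_y hP hv hi p
  have h1 := congrArg Walk.length (p.take_spec hy)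
  rw [Walk.length_append] at h1
  have h2 := dist_le (p.takeUntil y hy)
  have h3 : pot m r (fun i => min (i + 1) (2 * m - i)) (r i) ≤
      pot m r (fun i => min (i + 1) (2 * m - i)) y + (p.dropUntil y hy).length := by
    apply potential
    apply pot_lip hP
    · omega
    · omega
    · intro j hj
      constructor <;> omega
  rw [pot_r hP _ hi, pot_other _ (fun j hj h => hP.ne_y j hj h.symm)] at h3
  omega

/-- the two sides of the cycle -/
theorem sideA (hP : Pendant Γ m y r) : ∀ i, i < 2 * m → ∃ q : Γ.Walk y (r i),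
    q.length = i + 1 ∧ (∀ u ∈ q.support, u = y ∨ ∃ j ≤ i, u = r j) ∧
      ∀ j ≤ i, r j ∈ q.support := by
  intro i
  induction i with
  | zero =>
    intro _
    refine ⟨hP.first.toWalk, rfl, fun u hu => ?_, fun j hj => ?_⟩
    · rcases (by simpa using hu : u = y ∨ u = r 0) with h | h
      · exact Or.inl h
      · exact Or.inr ⟨0, le_rfl, h⟩
    · obtain rfl : j = 0 := by omega
      simp
  | succ i ih =>
    intro hi
    obtain ⟨q, hq1, hq2, hq3⟩ := ih (by omega)
    refine ⟨q.concat (hP.step i hi), by rw [Walk.length_concat, hq1], fun u hu => ?_,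
      fun j hj => ?_⟩
    · rw [Walk.support_concat, List.mem_append] at hu
      rcases hu with hu | hu
      · rcases hq2 u hu with h | ⟨j, hj, h⟩
        · exact Or.inl h
        · exact Or.inr ⟨j, by omega, h⟩
      · exact Or.inr ⟨i + 1, le_rfl, by simpa using hu⟩
    · rw [Walk.support_concat, List.mem_append]
      rcases Nat.lt_or_ge i j with h | h
      · obtain rfl : j = i + 1 := by omega
        exact Or.inr (by simp)
      · exact Or.inl (hq3 j h)

theorem sideB (hP : Pendant Γ m y r) : ∀ i, i < 2 * m → ∃ q : Γ.Walk y (r (2 * m - 1 - i)),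
    q.length = i + 1 ∧ ∀ u ∈ q.support, u = y ∨ ∃ j, 2 * m - 1 - i ≤ j ∧ j < 2 * m ∧ u = r j := by
  intro i
  induction i with
  | zero =>
    intro hm
    refine ⟨hP.last.toWalk, rfl, fun u hu => ?_⟩
    rcases (by simpa using hu : u = y ∨ u = r (2 * m - 1)) with h | h
    · exact Or.inl h
    · exact Or.inr ⟨2 * m - 1, by omega, by omega, h⟩
  | succ i ih =>
    intro hi
    obtain ⟨q, hq1, hq2⟩ := ih (by omega)
    have hadj : Γ.Adj (r (2 * m - 1 - i)) (r (2 * m - 1 - (i + 1))) := by
      have h1 := hP.step (2 * m - 1 - (i + 1)) (by omega)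
      have h2 : 2 * m - 1 - (i + 1) + 1 = 2 * m - 1 - i := by omega
      rw [h2] at h1
      exact h1.symm
    refine ⟨q.concat hadj, by rw [Walk.length_concat, hq1], fun u hu => ?_⟩
    rw [Walk.support_concat, List.mem_append] at hu
    rcases hu with hu | hu
    · rcases hq2 u hu with h | ⟨j, hj1, hj2, h⟩
      · exact Or.inl h
      · exact Or.inr ⟨j, by omega, hj2, h⟩
    · exact Or.inr ⟨2 * m - 1 - (i + 1), le_rfl, by omega, by simpa using hu⟩

theorem not_thin (hP : Pendant Γ m y r) (hc : Γ.Connected) {v : W} (hv : ∀ i < 2 * m, v ≠ r i)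
    (δ k : ℕ) (hm : m = 2 * (k + 1)) (hk : δ < k) :
    ∃ (x z t : W) (a : Γ.Walk x z) (b : Γ.Walk z t) (c : Γ.Walk t x),
      IsGeo a ∧ IsGeo b ∧ IsGeo c ∧ v ∈ a.support ∧ ¬ Thin δ a b c := by
  obtain ⟨p, hp⟩ := (hc v y).exists_walk_length_eq_dist
  obtain ⟨qa, hqa1, -, hqa3⟩ := sideA hP (m - 1) (by omega)
  have hsb := sideB hP (m - 1) (by omega)
  have hidx : 2 * m - 1 - (m - 1) = m := by omega
  rw [hidx] at hsb
  obtain ⟨qb', hqb1, hqb2⟩ := hsb
  have hadj : Γ.Adj (r (m - 1)) (r m) := by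
    have := hP.step (m - 1) (by omega)
    have h2 : m - 1 + 1 = m := by omega
    rwa [h2] at this
  -- the vertices of `p` are not on the cycle
  have hpr : ∀ u ∈ p.support, ∀ i < 2 * m, u ≠ r i := by
    rintro u hu i hi rfl
    have h1 := congrArg Walk.length (p.take_spec hu)
    rw [Walk.length_append] at h1
    have h2 := dist_le (p.takeUntil _ hu)
    have h3 := dist_ge hP hc hv hi
    have h4 : 1 ≤ min (i + 1) (2 * m - i) := by omega
    omega
  refine ⟨v, r (m - 1), r m, p.append qa, hadj.toWalk, (p.append qb').reverse, ?_, ?_, ?_, ?_, ?_⟩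
  · unfold IsGeo
    have h1 := dist_ge hP hc hv (i := m - 1) (by omega)
    have h2 := dist_le (p.append qa)
    rw [Walk.length_append] at h2 ⊢
    have h3 : min (m - 1 + 1) (2 * m - (m - 1)) = m := by omega
    omega
  · unfold IsGeo
    rw [dist_eq_one_iff_adj.2 hadj]
    rfl
  · unfold IsGeo
    have h1 := dist_ge hP hc hv (i := m) (by omega)
    have h2 := dist_le (p.append qb')
    rw [Walk.length_append] at h2
    rw [Walk.length_reverse, Walk.length_append, SimpleGraph.dist_comm]
    have h3 : min (m + 1) (2 * m - m) = m := by omega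
    omega
  · rw [Walk.mem_support_append_iff]
    exact Or.inl p.start_mem_support
  · rintro ⟨hthin, -, -⟩
    have hw : r k ∈ (p.append qa).support := by
      rw [Walk.mem_support_append_iff]
      exact Or.inr (hqa3 k (by omega))
    obtain ⟨u, hu, hd⟩ := hthin (r k) hw
    have hpot := potential_dist (pot m r (fun i => min (i + 1) (m - i)))
      (pot_lip hP _ (by omega) (by omega) (by
        intro j hj
        constructor <;> omega)) (hc u (r k))
    rw [pot_r hP _ (by omega), SimpleGraph.dist_comm] at hpot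
    have hmin : min (k + 1) (m - k) = k + 1 := by omega
    rw [hmin] at hpot
    have hu1 : pot m r (fun i => min (i + 1) (m - i)) u ≤ 1 := by
      rcases hu with hu | hu
      · rcases (by simpa using hu : u = r (m - 1) ∨ u = r m) with rfl | rfl
        · rw [pot_r hP _ (by omega)]
          omega
        · rw [pot_r hP _ (by omega)]
          omega
      · rw [Walk.support_reverse, List.mem_reverse, Walk.mem_support_append_iff] at hu
        rcases hu with hu | hu
        · rw [pot_other _ (hpr u hu)]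
          omega
        · rcases hqb2 u hu with rfl | ⟨j, hj1, hj2, rfl⟩
          · rw [pot_other _ (fun i hi h => hP.ne_y i hi h.symm)]
            omega
          · rw [pot_r hP _ hj2]
            omega
    omega

end

end Pool.Agent.R975.FK
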