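import Pool.Agent.R975.FK.Inf
import Pool.Agent.R975.FK.Lolli
import Pool.Agent.R975.FK.Graph

/-! Assembly: supercritical clusters that are not anchored hyperbolic (helper975). -/

set_option autoImplicit false

open MeasureTheory Filter Topology

open scoped Classical

namespace Pool.Agent.R975.FK

open Vt

noncomputable section

/-- the edges of a gadget -/
def gadE (k : ℕ) (j : Fin (NN k)) : Finset (Sym2 Vt) :=
  ({s(x k, y k j), s(y k j, x (k + 1))} ∪
    (Finset.univ : Finset (Fin (4 * (k + 1)))).image (fun i => s(y k j, r k j i))) ∪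
    (Finset.univ : Finset (Fin (4 * k + 3))).image
      (fun i => s(r k j ⟨i.val, by omega⟩, r k j ⟨i.val + 1, by omega⟩))

/-- the pattern: all the edges open, except the spokes that are not at the ends of the rim -/
def gadT (k : ℕ) (j : Fin (NN k)) : Finset (Sym2 Vt) :=
  (gadE k j).filter fun e => ∀ i : Fin (4 * (k + 1)), e = s(y k j, r k j i) →
    i.val = 0 ∨ i.val = 4 * k + 3

theorem mem_gadE {k : ℕ} {j : Fin (NN k)} {e : Sym2 Vt} : e ∈ gadE k j ↔
    e = s(x k, y k j) ∨ e = s(y k j, x (k + 1)) ∨ (∃ i, e = s(y k j, r k j i)) ∨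
      ∃ i i' : Fin (4 * (k + 1)), i'.val = i.val + 1 ∧ e = s(r k j i, r k j i') := by
  unfold gadE
  simp only [Finset.mem_union, Finset.mem_insert, Finset.mem_singleton, Finset.mem_image,
    Finset.mem_univ, true_and]
  constructor
  · rintro (((h | h) | ⟨i, h⟩) | ⟨i, h⟩)
    · exact Or.inl h
    · exact Or.inr (Or.inl h)
    · exact Or.inr (Or.inr (Or.inl ⟨i, h.symm⟩))
    · exact Or.inr (Or.inr (Or.inr ⟨_, _, rfl, h.symm⟩))
  · rintro (h | h | ⟨i, h⟩ | ⟨i, i', hi, h⟩)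
    · exact Or.inl (Or.inl (Or.inl h))
    · exact Or.inl (Or.inl (Or.inr h))
    · exact Or.inl (Or.inr ⟨i, h.symm⟩)
    · have hlt : i.val + 1 < 4 * (k + 1) := by
        have := i'.isLt
        omega
      obtain rfl : i' = ⟨i.val + 1, hlt⟩ := Fin.ext hi
      exact Or.inr ⟨⟨i.val, by omega⟩, h.symm⟩

theorem card_gadE (k : ℕ) (j : Fin (NN k)) : (gadE k j).card ≤ 8 * k + 9 := by
  unfold gadE
  have h1 := Finset.card_union_le
    ({s(x k, y k j), s(y k j, x (k + 1))} ∪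
      (Finset.univ : Finset (Fin (4 * (k + 1)))).image (fun i => s(y k j, r k j i)))
    ((Finset.univ : Finset (Fin (4 * k + 3))).image
      (fun i => s(r k j ⟨i.val, by omega⟩, r k j ⟨i.val + 1, by omega⟩)))
  have h2 := Finset.card_union_le ({s(x k, y k j), s(y k j, x (k + 1))} : Finset (Sym2 Vt))
    ((Finset.univ : Finset (Fin (4 * (k + 1)))).image (fun i => s(y k j, r k j i)))
  have h3 : ({s(x k, y k j), s(y k j, x (k + 1))} : Finset (Sym2 Vt)).card ≤ 2 :=
    Finset.card_le_two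
  have h4 := Finset.card_image_le (s := (Finset.univ : Finset (Fin (4 * (k + 1)))))
    (f := fun i => s(y k j, r k j i))
  have h5 := Finset.card_image_le (s := (Finset.univ : Finset (Fin (4 * k + 3))))
    (f := fun i => s(r k j ⟨i.val, by omega⟩, r k j ⟨i.val + 1, by omega⟩))
  rw [Finset.card_univ, Fintype.card_fin] at h4 h5
  omega

theorem gadE_edge (k : ℕ) (j : Fin (NN k)) (e : Sym2 Vt) (he : e ∈ gadE k j) :
    e ∈ GG.edgeSet := by
  rcases mem_gadE.1 he with rfl | rfl | ⟨i, rfl⟩ | ⟨i, i', hi, rfl⟩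
  · exact adj_xy k j
  · exact adj_yx k j
  · exact adj_yr k j i
  · exact adj_rr k j i i' hi

/-- the vertex belongs to the gadget `(k, j)` -/
def own (k : ℕ) (j : Fin (NN k)) (v : Vt) : Prop := v = y k j ∨ ∃ i, v = r k j i

theorem own_unique {k : ℕ} {j j' : Fin (NN k)} {v : Vt} (h : own k j v) (h' : own k j' v) :
    j = j' := by
  rcases h with rfl | ⟨i, rfl⟩
  · rcases h' with h' | ⟨i', h'⟩
    · simpa using h'
    · exact absurd h' (by simp)
  · rcases h' with h' | ⟨i', h'⟩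
    · exact absurd h' (by simp)
    · have := Vt.r.inj h'
      simpa using this.2.1

theorem gadE_own {k : ℕ} {j : Fin (NN k)} {e : Sym2 Vt} (he : e ∈ gadE k j) :
    (∃ v ∈ e, own k j v) ∧ ∀ v ∈ e, own k j v ∨ ∃ m, v = x m := by
  rcases mem_gadE.1 he with rfl | rfl | ⟨i, rfl⟩ | ⟨i, i', hi, rfl⟩
  · refine ⟨⟨y k j, by simp, Or.inl rfl⟩, fun v hv => ?_⟩
    rcases Sym2.mem_iff.1 hv with rfl | rfl
    · exact Or.inr ⟨_, rfl⟩
    · exact Or.inl (Or.inl rfl)
  · refine ⟨⟨y k j, by simp, Or.inl rfl⟩, fun v hv => ?_⟩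
    rcases Sym2.mem_iff.1 hv with rfl | rfl
    · exact Or.inl (Or.inl rfl)
    · exact Or.inr ⟨_, rfl⟩
  · refine ⟨⟨y k j, by simp, Or.inl rfl⟩, fun v hv => ?_⟩
    rcases Sym2.mem_iff.1 hv with rfl | rfl
    · exact Or.inl (Or.inl rfl)
    · exact Or.inl (Or.inr ⟨_, rfl⟩)
  · refine ⟨⟨r k j i, by simp, Or.inr ⟨i, rfl⟩⟩, fun v hv => ?_⟩
    rcases Sym2.mem_iff.1 hv with rfl | rfl
    · exact Or.inl (Or.inr ⟨_, rfl⟩)
    · exact Or.inl (Or.inr ⟨_, rfl⟩)

theorem gadE_disjoint (k : ℕ) (j j' : Fin (NN k)) (h : j ≠ j') :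
    Disjoint (gadE k j) (gadE k j') := by
  rw [Finset.disjoint_left]
  intro e he he'
  obtain ⟨⟨v, hv, hv1⟩, _⟩ := gadE_own he
  rcases (gadE_own he').2 v hv with h2 | ⟨m, rfl⟩
  · exact h (own_unique hv1 h2)
  · rcases hv1 with h3 | ⟨i, h3⟩
    · exact absurd h3 (by simp)
    · exact absurd h3 (by simp)

/-- a good gadget -/
def Good (ω : Config Vt) (k : ℕ) : Prop :=
  ∃ j : Fin (NN k), ∀ e ∈ gadE k j, (ω e = true ↔ e ∈ gadT k j)

/-! ### probability -/

theorem summable_bad {c : ℝ} (h0 : 0 < c) (h1 : c ≤ 1) :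
    Summable (fun k : ℕ => (1 - c ^ (8 * k + 9)) ^ (NN k)) := by
  have hg : Summable (fun k : ℕ => Real.exp (-1) ^ k) :=
    summable_geometric_of_lt_one (Real.exp_pos _).le (by
      rw [Real.exp_lt_one_iff]
      norm_num)
  refine Summable.of_norm_bounded_eventually_nat hg ?_
  obtain ⟨K, hK⟩ := exists_nat_ge (1 / c)
  refine eventually_atTop.2 ⟨K, fun k hk => ?_⟩
  have hcL : c ^ (8 * k + 9) ≤ 1 := pow_le_one₀ h0.le h1
  have hcL0 : 0 < c ^ (8 * k + 9) := pow_pos h0 _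
  rw [Real.norm_of_nonneg (pow_nonneg (by linarith) _)]
  have h2 : (1 - c ^ (8 * k + 9)) ^ (NN k) ≤ Real.exp (-(c ^ (8 * k + 9) * NN k)) := by
    have h3 : 1 - c ^ (8 * k + 9) ≤ Real.exp (-(c ^ (8 * k + 9))) := by
      have := Real.add_one_le_exp (-(c ^ (8 * k + 9)))
      linarith
    calc (1 - c ^ (8 * k + 9)) ^ (NN k) ≤ Real.exp (-(c ^ (8 * k + 9))) ^ (NN k) :=
          pow_le_pow_left₀ (by linarith) h3 _
      _ = Real.exp (-(c ^ (8 * k + 9) * NN k)) := by
          rw [← Real.exp_nat_mul]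
          congr 1
          ring
  refine h2.trans ?_
  rw [← Real.exp_nat_mul]
  refine Real.exp_le_exp.2 ?_
  have h4 : (1 : ℝ) ≤ c * ((k : ℝ) + 2) := by
    have h5 : 1 / c ≤ (k : ℝ) := hK.trans (by exact_mod_cast hk)
    rw [div_le_iff₀ h0] at h5
    nlinarith
  have h6 : (1 : ℝ) ≤ (c * ((k : ℝ) + 2)) ^ (8 * k + 9) := one_le_pow₀ h4
  have h7 : c ^ (8 * k + 9) * (NN k : ℝ) =
      (c * ((k : ℝ) + 2)) ^ (8 * k + 9) * ((k : ℝ) + 1) := by
    unfold NN
    push_cast
    rw [mul_pow]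
    ring
  rw [h7]
  have h8 : (0 : ℝ) ≤ k := Nat.cast_nonneg k
  nlinarith

theorem ae_good {p : ℝ} (h0 : 0 < p) (h1 : p < 1) {μ : Measure (Config Vt)}
    (hμ : IsFreeFK GG p μ) : ∀ᵐ ω ∂μ, ∃ K, ∀ k ≥ K, Good ω k := by
  have hb : ∀ k, μ {ω | ¬ Good ω k} ≤ ENNReal.ofReal ((1 - cc p ^ (8 * k + 9)) ^ (NN k)) := by
    intro k
    have h2 := free_fail h0 h1 hμ (fun j => gadE k j) (fun j => gadT k j) (8 * k + 9)
      (card_gadE k) (gadE_disjoint k) Finset.univ (fun j _ e he => gadE_edge k j e he)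
    rw [Finset.card_univ, Fintype.card_fin] at h2
    refine (measure_mono ?_).trans h2
    intro ω hω j _ hj
    exact hω ⟨j, hj⟩
  have hs : (∑' k, μ {ω | ¬ Good ω k}) ≠ ⊤ := by
    refine ne_top_of_le_ne_top (summable_bad (cc_pos h0 h1) (cc_le h0)).tsum_ofReal_ne_top ?_
    exact ENNReal.tsum_le_tsum hb
  filter_upwards [ae_eventually_notMem hs] with ω hω
  obtain ⟨K, hK⟩ := eventually_atTop.1 hω
  exact ⟨K, fun k hk => not_not.1 (hK k hk)⟩

/-! ### deterministic part -/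

theorem open_le (ω : Config Vt) : openGraph GG ω ≤ GG := fun _ _ h => h.1

theorem gadT_sub {k : ℕ} {j : Fin (NN k)} {e : Sym2 Vt} (he : e ∈ gadE k j)
    (h : ∀ i : Fin (4 * (k + 1)), e = s(y k j, r k j i) → i.val = 0 ∨ i.val = 4 * k + 3) :
    e ∈ gadT k j := Finset.mem_filter.2 ⟨he, h⟩

section

variable {ω : Config Vt} {k : ℕ} {j : Fin (NN k)}

theorem good_xy (hj : ∀ e ∈ gadE k j, (ω e = true ↔ e ∈ gadT k j)) :
    (openGraph GG ω).Adj (x k) (y k j) := by
  refine ⟨adj_xy k j, (hj _ (mem_gadE.2 (Or.inl rfl))).2 (gadT_sub (mem_gadE.2 (Or.inl rfl)) ?_)⟩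
  intro i hi
  simp at hi

theorem good_yx (hj : ∀ e ∈ gadE k j, (ω e = true ↔ e ∈ gadT k j)) :
    (openGraph GG ω).Adj (y k j) (x (k + 1)) := by
  have hm : s(y k j, x (k + 1)) ∈ gadE k j := mem_gadE.2 (Or.inr (Or.inl rfl))
  refine ⟨adj_yx k j, (hj _ hm).2 (gadT_sub hm ?_)⟩
  intro i hi
  simp at hi

theorem good_yr (hj : ∀ e ∈ gadE k j, (ω e = true ↔ e ∈ gadT k j)) (i : Fin (4 * (k + 1))) :
    (openGraph GG ω).Adj (y k j) (r k j i) ↔ (i.val = 0 ∨ i.val = 4 * k + 3) := by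
  have hm : s(y k j, r k j i) ∈ gadE k j := mem_gadE.2 (Or.inr (Or.inr (Or.inl ⟨i, rfl⟩)))
  constructor
  · intro h
    exact (Finset.mem_filter.1 ((hj _ hm).1 h.2)).2 i rfl
  · intro h
    refine ⟨adj_yr k j i, (hj _ hm).2 (gadT_sub hm ?_)⟩
    intro i' hi'
    have : i = i' := by simpa using hi'
    rwa [← this]

theorem good_rr (hj : ∀ e ∈ gadE k j, (ω e = true ↔ e ∈ gadT k j)) (i i' : Fin (4 * (k + 1)))
    (hi : i'.val = i.val + 1) : (openGraph GG ω).Adj (r k j i) (r k j i') := by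
  have hm : s(r k j i, r k j i') ∈ gadE k j :=
    mem_gadE.2 (Or.inr (Or.inr (Or.inr ⟨i, i', hi, rfl⟩)))
  refine ⟨adj_rr k j i i' hi, (hj _ hm).2 (gadT_sub hm ?_)⟩
  intro i'' hi''
  simp at hi''

end

theorem infinite_cluster {ω : Config Vt} {K : ℕ} (hK : ∀ k ≥ K, Good ω k) :
    HasInfCluster GG ω := by
  have hr : ∀ k ≥ K, (openGraph GG ω).Reachable (x K) (x k) := by
    intro k hk
    induction k, hk using Nat.le_induction with
    | base => exact SimpleGraph.Reachable.refl _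
    | succ k hk ih =>
      obtain ⟨j, hj⟩ := hK k hk
      exact ih.trans ((good_xy hj).reachable.trans (good_yx hj).reachable)
  refine ⟨(openGraph GG ω).connectedComponentMk (x K), ?_⟩
  refine Set.infinite_of_injective_forall_mem (f := fun n : ℕ => x (K + n)) ?_ ?_
  · intro a b h
    simpa using h
  · intro n
    rw [SimpleGraph.ConnectedComponent.mem_supp_iff, SimpleGraph.ConnectedComponent.eq]
    exact (hr _ (by omega)).symm

theorem cluster_not_anchored {ω : Config Vt} {K : ℕ} (hK : ∀ k ≥ K, Good ω k)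
    (C : (openGraph GG ω).ConnectedComponent) (hC : C.supp.Infinite) (v : C) :
    ¬ AnchoredAt C.toSimpleGraph v := by
  rintro ⟨δ, hδ⟩
  set k := max K (max (idx v.1 + 1) (δ + 1)) with hk
  -- a far vertex of the cluster
  obtain ⟨u, hu1, hu2⟩ : ∃ u ∈ C.supp, k ≤ idx u := by
    by_contra hcon
    push Not at hcon
    exact hC ((finite_below k).subset fun u hu => (hcon u hu).le)
  have hxk : x k ∈ C.supp := by
    obtain ⟨p⟩ := C.reachable_of_mem_supp v.2 hu1
    have h1 := through_x (open_le ω) p (k := k) (by omega) hu2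
    have h2 : (openGraph GG ω).Reachable v.1 (x k) := (p.takeUntil _ h1).reachable
    exact (SimpleGraph.ConnectedComponent.sound h2.symm).trans v.2
  obtain ⟨j, hj⟩ := hK k (by omega)
  have hy : y k j ∈ C.supp :=
    (SimpleGraph.ConnectedComponent.sound (good_xy hj).reachable.symm).trans hxk
  have hr : ∀ n : ℕ, ∀ hn : n < 4 * (k + 1), r k j ⟨n, hn⟩ ∈ C.supp := by
    intro n
    induction n with
    | zero =>
      intro hn
      exact (SimpleGraph.ConnectedComponent.sound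
        ((good_yr hj ⟨0, hn⟩).2 (Or.inl rfl)).reachable.symm).trans hy
    | succ n ih =>
      intro hn
      exact (SimpleGraph.ConnectedComponent.sound
        (good_rr hj ⟨n, by omega⟩ ⟨n + 1, hn⟩ rfl).reachable.symm).trans (ih (by omega))
  set Y : C := ⟨y k j, hy⟩ with hY
  set R : ℕ → C := fun n => if hn : n < 4 * (k + 1) then ⟨r k j ⟨n, hn⟩, hr n hn⟩ else Y with hR
  have hRn : ∀ n, ∀ hn : n < 4 * (k + 1), R n = ⟨r k j ⟨n, hn⟩, hr n hn⟩ := by
    intro n hn
    simp only [hR]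
    rw [dif_pos hn]
  have hadj : ∀ a b : C, C.toSimpleGraph.Adj a b ↔ (openGraph GG ω).Adj a.1 b.1 := by
    intro a b
    exact SimpleGraph.ConnectedComponent.toSimpleGraph_adj C a.2 b.2
  have hP : Pendant C.toSimpleGraph (2 * (k + 1)) Y R := by
    refine ⟨?_, ?_, ?_, ?_, ?_, ?_⟩
    · intro i hi h
      rw [hRn i (by omega)] at h
      have := congrArg Subtype.val h
      simp [hY] at this
    · intro i hi l hl h
      rw [hRn i (by omega), hRn l (by omega)] at h
      have := congrArg Subtype.val h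
      simpa using this
    · rw [hRn 0 (by omega), hadj]
      exact (good_yr hj _).2 (Or.inl rfl)
    · rw [hRn (2 * (2 * (k + 1)) - 1) (by omega), hadj]
      refine (good_yr hj _).2 (Or.inr ?_)
      simp only
      omega
    · intro i hi
      rw [hRn i (by omega), hRn (i + 1) (by omega), hadj]
      exact good_rr hj _ _ rfl
    · intro i hi u hu
      rw [hRn i (by omega), hadj] at hu
      rcases adj_r hu.1 with h | ⟨i', h, hi'⟩
      · left
        refine ⟨Subtype.ext h, ?_⟩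
        have h2 : (openGraph GG ω).Adj (y k j) (r k j ⟨i, by omega⟩) := by
          have h3 := hu.symm
          simp only at h3
          rw [h] at h3
          exact h3
        have := (good_yr hj _).1 h2
        simp only at this
        omega
      · right
        refine ⟨i'.val, by have := i'.isLt; omega, ?_, ?_⟩
        · rw [hRn i'.val i'.isLt]
          exact Subtype.ext h
        · simpa using hi'
  have hv : ∀ i < 2 * (2 * (k + 1)), v ≠ R i := by
    intro i hi h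
    rw [hRn i (by omega)] at h
    have h2 : idx v.1 = idx (r k j ⟨i, by omega⟩) := congrArg (fun z : C => idx z.1) h
    have h3 : idx (r k j ⟨i, by omega⟩) = k := rfl
    omega
  obtain ⟨x', z, t, a, b, c, ha, hb, hc, hva, hnt⟩ :=
    not_thin hP C.connected_toSimpleGraph hv δ k rfl (by omega)
  exact hnt (hδ x' z t a b c ha hb hc (Or.inl hva))

theorem main_theorem :
    ∃ (V : Type) (_ : Countable V) (G : SimpleGraph V),
      Infinite V ∧ G.Connected ∧ (∀ v, (G.neighborSet v).Finite) ∧ GromovHyperbolic G ∧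
      pc G = 0 ∧
      ∀ p : ℝ, 0 < p → p < 1 →
        (∃ μ, IsFreeFK G p μ) ∧
        ∀ μ, IsFreeFK G p μ → ∀ᵐ ω ∂μ, HasInfCluster G ω ∧
          ∀ C : (openGraph G ω).ConnectedComponent, C.supp.Infinite →
            ∀ v : C, ¬ AnchoredAt C.toSimpleGraph v := by
  have hall : ∀ p : ℝ, 0 < p → p < 1 → ∀ μ, IsFreeFK GG p μ → ∀ᵐ ω ∂μ, HasInfCluster GG ω ∧
      ∀ C : (openGraph GG ω).ConnectedComponent, C.supp.Infinite →
        ∀ v : C, ¬ AnchoredAt C.toSimpleGraph v := by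
    intro p h0 h1 μ hμ
    filter_upwards [ae_good h0 h1 hμ] with ω hω
    obtain ⟨K, hK⟩ := hω
    exact ⟨infinite_cluster hK, fun C hC v => cluster_not_anchored hK C hC v⟩
  have hne : Nonempty Vt := ⟨x 0⟩
  refine ⟨Vt, inferInstance, GG, inferInstance, connected_GG, locally_finite, hyperbolic_GG, ?_,
    fun p h0 h1 => ⟨exists_free h0 h1, hall p h0 h1⟩⟩
  have hmem : ∀ p : ℝ, 0 < p → p < 1 → p ∈ {p : ℝ | 0 ≤ p ∧ p ≤ 1 ∧
      ∃ μ, IsFreeFK GG p μ ∧ 0 < μ {ω | HasInfCluster GG ω}} := by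
    intro p h0 h1
    obtain ⟨μ, hμ⟩ := exists_free (G := GG) h0 h1
    refine ⟨h0.le, h1.le, μ, hμ, ?_⟩
    have hpr := hμ.1
    have h2 : ∀ᵐ ω ∂μ, ω ∈ {ω | HasInfCluster GG ω} := by
      filter_upwards [hall p h0 h1 μ hμ] with ω hω
      exact hω.1
    have h3 : μ {ω | HasInfCluster GG ω}ᶜ = 0 := h2
    have h4 := measure_univ_le_add_compl (μ := μ) {ω | HasInfCluster GG ω}
    rw [h3, add_zero, measure_univ] at h4
    exact lt_of_lt_of_le one_pos h4
  unfold pc
  refine le_antisymm ?_ ?_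
  · refine le_of_forall_pos_le_add fun ε hε => ?_
    have h1 : min (ε / 2) (1 / 2) < 1 := (min_le_right _ _).trans_lt (by norm_num)
    have h2 : 0 < min (ε / 2) (1 / 2) := lt_min (by linarith) (by norm_num)
    have h3 := csInf_le (s := {p : ℝ | 0 ≤ p ∧ p ≤ 1 ∧
      ∃ μ, IsFreeFK GG p μ ∧ 0 < μ {ω | HasInfCluster GG ω}}) ⟨0, fun p hp => hp.1⟩ (hmem _ h2 h1)
    have h4 : min (ε / 2) (1 / 2) ≤ ε / 2 := min_le_left _ _
    linarith
  · exact le_csInf ⟨1 / 2, hmem _ (by norm_num) (by norm_num)⟩ fun p hp => hp.1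

end

end Pool.Agent.R975.FK
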